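import Pool.Agent.Z704.Defs
import Pool.Agent.Z702.LocZ
import Pool.Agent.Z702.Main

/-!
# The `2`-converse for twists of any sign: assembly
-/

set_option autoImplicit false
set_option linter.style.haveILetI false

open Finset

namespace Pool.Agent.Z704

open Pool.Agent.TH841.SH.D
open Pool.Agent.Z700 (pr lres Yd)
open Pool.Agent.Z701 (Sp)
open Pool.Agent.Y687 (SS)
open Pool.Agent.Y687.N (HypK xrZ RtZ)
open Pool.Agent.Y700 (PC WM EQ Omega IsL tamProd S_E0 S_TIN S_TSP S_T2 S_T7 S_MIN)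
open Pool.Agent.W97.MT (II IsGloballyMinimal)
open Pool.Agent.Z702 (WZ S_COC S_LOT S_COB S_TOR S_TRN S_TORS S_LQ S_LG S_LP S_LIN)

/-- the conditions on `m` and `P` -/
structure Cnd (m : ℤ) (P : Finset ℕ) : Prop where
  m4 : m % 4 = 1
  sp : ∀ p ∈ P, Sp p
  sqf : Squarefree ((pr P : ℤ) * m)
  two : ∀ q : ℕ, q.Prime → (q : ℤ) ∣ m → q ≠ 2 ∧ q ≠ 7 ∧ ¬ IsSquare (-7 : ZMod q) ∧
    ¬ IsSquare (2 : ZMod q)

theorem Cnd.hyp {m : ℤ} {P : Finset ℕ} (h : Cnd m P) (hY : Odd (Yd lres (xrZ m) P)) : HypK m P :=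
  ⟨h.m4, h.sp, h.sqf, h.two, hY⟩

theorem Cnd.M4 {m : ℤ} {P : Finset ℕ} (h : Cnd m P) : ((pr P : ℤ) * m) % 4 = 1 := by
  have h1 := Pool.Agent.Z702.prJ8 P fun p hp => (h.sp p hp).2.1
  have h2 : ((pr P : ℕ) : ℤ) % 4 = 1 := by omega
  rw [Int.mul_emod, h2, h.m4]
  rfl

/-- **the converse**: rank zero and `Ш[2] = 0` imply that the matrix is nonsingular -/
theorem conv (h1 : S_COC) (h2 : S_LOT) (h3 : S_COB) (h4 : S_TOR) (hq : S_LQ) (hg : S_LG)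
    (hp : S_LP) (hn : S_LIN) {P : Finset ℕ} {m : ℤ} (hC : Cnd m P)
    (hf : Finite (WZ (13 * ((pr P : ℤ) * m)) (128 * ((pr P : ℤ) * m) ^ 2)).toAffine.Point)
    (hsh : ∀ x : Sha (WZ (13 * ((pr P : ℤ) * m)) (128 * ((pr P : ℤ) * m) ^ 2)),
      x + x = 0 → x = 0) : Odd (Yd lres (xrZ m) P) := by
  by_contra hY
  obtain ⟨J, hJP, hJne, k1, k2⟩ := hn lres (xrZ m) P hY
  have hm0 : m ≠ 0 := by have := hC.m4; rintro rfl; omega
  obtain ⟨l1, l2⟩ := Pool.Agent.Z702.locZ hq hg hp hm0 hC.sp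
    (fun q hq hqm => ⟨(hC.two q hq hqm).1, (hC.two q hq hqm).2.1, (hC.two q hq hqm).2.2.1⟩) hJP k1 k2
  have hJp : ∀ p ∈ J, p.Prime := fun p hp => (hC.sp p (hJP hp)).1
  have hM : (pr P : ℤ) * m ≠ 0 := by have := hC.M4; intro h; rw [h] at this; omega
  have hM2 : 0 < ((pr P : ℤ) * m) ^ 2 := by positivity
  have hab : (13 * ((pr P : ℤ) * m)) ^ 2 - 4 * (128 * ((pr P : ℤ) * m) ^ 2) < 0 := by
    nlinarith
  have hd0 : 0 < pr J := Pool.Agent.Z700.pr_pos hJp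
  obtain ⟨x, hx0, hx2⟩ := Pool.Agent.Z702.sha_ex h1 h2 h3 h4 (d := ((pr J : ℕ) : ℤ)) (by positivity)
    hab.ne (Pool.Agent.Z702.ns_b hM) (Pool.Agent.Z702.ns_ab hM) (by exact_mod_cast hd0.ne')
    (Pool.Agent.Z702.ns_J hJp hJne) (by
      rintro ⟨r, hr⟩
      have h5 : (((13 * ((pr P : ℤ) * m) : ℤ) : ℚ) ^ 2 -
          4 * ((128 * ((pr P : ℤ) * m) ^ 2 : ℤ) : ℚ)) < 0 := by exact_mod_cast hab
      have h6 : (0 : ℚ) < (((pr J : ℕ) : ℤ) : ℚ) := by exact_mod_cast hd0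
      nlinarith [mul_self_nonneg r, mul_pos h6 (neg_pos.2 h5)]) l1 l2 hf
  exact hx0 (hsh x hx2)

/-- **the equivalence**: the matrix is nonsingular if and only if the rank is zero and `Ш[2] = 0` -/
theorem equiv (h1 : S_COC) (h2 : S_LOT) (h3 : S_COB) (h4 : S_TOR) (hq : S_LQ) (hg : S_LG)
    (hp : S_LP) (hn : S_LIN) (hT : S_TRN) (hA : S_SELA) (hB : S_SELB) {P : Finset ℕ} {m : ℤ}
    (hC : Cnd m P) :
    Odd (Yd lres (xrZ m) P) ↔ (Finite (EQ (WM ((pr P : ℤ) * m))).toAffine.Point ∧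
      ∀ x : Sha (EQ (WM ((pr P : ℤ) * m))), x + x = 0 → x = 0) := by
  obtain ⟨t1, t2, -⟩ := Pool.Agent.Z702.trn_WM hT hC.M4
  constructor
  · intro hY
    obtain ⟨a1, a2, -⟩ := Pool.Agent.Y700.alg_M (M := (pr P : ℤ) * m) hC.M4
      (fun z h1 h2 h3 => hA m P (hC.hyp hY) z h1 h2 (fun l _ => h3 l))
      (fun z h1 h2 => hB m P (hC.hyp hY) z h1 (fun l _ => by
        have h3 := h2 l
        have e1 : (-2 : ℤ) * (13 * ((pr P : ℤ) * m)) = -26 * ((pr P : ℤ) * m) := by ring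
        have e2 : ((13 : ℤ) * ((pr P : ℤ) * m)) ^ 2 - 4 * (128 * ((pr P : ℤ) * m) ^ 2) =
          -343 * ((pr P : ℤ) * m) ^ 2 := by ring
        rw [e1, e2] at h3
        exact h3))
    exact ⟨a2, fun x hx => a1 1 x (by rw [pow_one, two_nsmul]; exact hx)⟩
  · rintro ⟨hf, hsh⟩
    exact conv h1 h2 h3 h4 hq hg hp hn hC (t1.2 hf) (t2.2 hsh)

/-- the equivalence for the short model -/
theorem equivS (h1 : S_COC) (h2 : S_LOT) (h3 : S_COB) (h4 : S_TOR) (hq : S_LQ) (hg : S_LG)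
    (hp : S_LP) (hn : S_LIN) (hT : S_TRN) (hA : S_SELA) (hB : S_SELB) {P : Finset ℕ} {m : ℤ}
    (hC : Cnd m P) :
    Odd (Yd lres (xrZ m) P) ↔
      (Finite (Pool.Agent.Z702.sh (5805 * ((pr P : ℤ) * m) ^ 2)
        (-285714 * ((pr P : ℤ) * m) ^ 3)).toAffine.Point ∧
      ∀ x : Sha (Pool.Agent.Z702.sh (5805 * ((pr P : ℤ) * m) ^ 2)
        (-285714 * ((pr P : ℤ) * m) ^ 3)), x + x = 0 → x = 0) := by
  have hM : (pr P : ℤ) * m ≠ 0 := by have := hC.M4; intro h; rw [h] at this; omega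
  obtain ⟨t1, t2, -⟩ := Pool.Agent.Z702.trn_WM hT hC.M4
  obtain ⟨t3, t4⟩ := Pool.Agent.Z702.trn_sh hT hM
  rw [equiv h1 h2 h3 h4 hq hg hp hn hT hA hB hC, ← t1, ← t2, t3, t4]

/-- the formula from the value at `1`, for either sign -/
theorem concl (tM : S_MIN) {M : ℤ} (h4 : M % 4 = 1) (hsqf : Squarefree M) (h7 : ¬ (7 : ℤ) ∣ M)
    {f0 : ℂ → ℂ} (hf : IsL (WM M) f0) {V Op r : ℝ} (hOp : Op ≠ 0) (hr : r ≠ 0)
    (hv : f0 1 = ((V * Op / (3 * r) : ℝ) : ℂ)) (hΩ : Omega (WM M) = 2 * Op / r)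
    {e : ℕ} {o1 y : ℤ} (ho1 : Odd o1) (e1 : V = 2 ^ e * (o1 * (y : ℝ) ^ 2)) {o3 : ℕ} (ho3 : Odd o3)
    (e3 : tamProd (WM M) = 2 ^ (e + 1) * o3) {k : ℕ} (hk : Odd k)
    (a3 : Nat.card (AddCommGroup.torsion (EQ (WM M)).toAffine.Point) = 2 * k) :
    IsGloballyMinimal (WM M) ∧
    (∃ f, IsL (WM M) f) ∧ ∀ f, IsL (WM M) f → (y ≠ 0 → f 1 ≠ 0) ∧
      ∃ w : ℚ, w ≠ 0 ∧ padicValRat 2 w = 0 ∧
      f 1 = (((w : ℝ) * (y : ℝ) ^ 2 * (Omega (WM M) * tamProd (WM M) /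
        (Nat.card (AddCommGroup.torsion (EQ (WM M)).toAffine.Point) : ℝ) ^ 2) : ℝ) : ℂ) := by
  refine ⟨(tM M h4 hsqf h7).1, ⟨f0, hf⟩, ?_⟩
  intro g hg
  rw [hg.unique hf]
  refine ⟨fun hy0 => ?_, ?_⟩
  · rw [hv, e1]
    have ho0 : (o1 : ℝ) ≠ 0 := by
      rintro h
      have : o1 = 0 := by exact_mod_cast h
      rw [this] at ho1
      exact absurd ho1 (by decide)
    have hyR : (y : ℝ) ≠ 0 := by exact_mod_cast hy0
    have h2 : (2 ^ e * ((o1 : ℝ) * (y : ℝ) ^ 2)) * Op / (3 * r) ≠ 0 :=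
      div_ne_zero (mul_ne_zero (mul_ne_zero (by positivity) (mul_ne_zero ho0 (pow_ne_zero 2 hyR)))
        hOp) (mul_ne_zero (by norm_num) hr)
    exact_mod_cast h2
  obtain ⟨hu0, hu1⟩ := Pool.Agent.Y700.odd_div_odd (a := o1 * (k : ℤ) ^ 2) (b := 3 * (o3 : ℤ))
    (ho1.mul ((Int.odd_coe_nat k).2 hk).pow)
    ((by decide : Odd (3 : ℤ)).mul ((Int.odd_coe_nat o3).2 ho3))
  have ho3' : (o3 : ℝ) ≠ 0 := by
    rintro h
    have : o3 = 0 := by exact_mod_cast h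
    rw [this] at ho3
    exact absurd ho3 (by decide)
  have hk' : (k : ℝ) ≠ 0 := by
    rintro h
    have : k = 0 := by exact_mod_cast h
    rw [this] at hk
    exact absurd hk (by decide)
  refine ⟨_, hu0, hu1, ?_⟩
  rw [hv]
  congr 1
  rw [hΩ, e1, e3, a3]
  push_cast
  rw [pow_add]
  field_simp

end Pool.Agent.Z704
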