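import Pool.Agent.Y687.N.Desc2
import Pool.Agent.Z702.Defs2
import Pool.Agent.Y700.Gen

/-!
# Twists of `X_0(14)` of any sign: the `2`-part

Fourth stage of the project Z700. `M = pr P * m`, `P` a finite set of split primes, `m` an integer
with `m = 1 mod 4` all of whose prime factors are inert in `ℚ(√-7)` and in `ℚ(√2)`
(`Pool.Agent.Y687.N.HypK`).
-/

set_option autoImplicit false

namespace Pool.Agent.Z704

open Finset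

open Pool.Agent.Z700 (pr lres Yd)
open Pool.Agent.Z701 (Sp)
open Pool.Agent.Y687 (SS)
open Pool.Agent.Y687.N (HypK xrZ RtZ)
open Pool.Agent.Y700 (PC WM Omega IsL tamProd S_E0 S_TIN S_TSP S_T2 S_T7)
open Pool.Agent.W97.MT (II)

/-- SELA: the first isogeny Selmer set -/
def S_SELA : Prop := ∀ (m : ℤ) (P : Finset ℕ), HypK m P → ∀ z : ℤ, Squarefree z → 0 < z →
  (∀ (l : ℕ) [Fact l.Prime], PC (13 * ((pr P : ℤ) * m)) (128 * ((pr P : ℤ) * m) ^ 2) l z) →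
  z = 1 ∨ z = 2

/-- SELB: the second isogeny Selmer set -/
def S_SELB : Prop := ∀ (m : ℤ) (P : Finset ℕ), HypK m P → ∀ z : ℤ, Squarefree z →
  (∀ (l : ℕ) [Fact l.Prime], PC (-26 * ((pr P : ℤ) * m)) (-343 * ((pr P : ℤ) * m) ^ 2) l z) →
  z = 1 ∨ z = -7

/-- OMEGA: the real period of the negative twists -/
def S_OMEGA : Prop := ∀ (L : PeriodPair) (Op Om : ℝ), 0 < Op → 0 < Om →
  L.g₂ = -215 / 12 → L.g₃ = 5291 / 216 →
  (∀ w : ℂ, w ∈ L.lattice ↔ ∃ a b : ℤ, 2 ∣ a - b ∧ w = a * Op + b * Om * Complex.I) →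
  ∀ M : ℤ, M % 4 = 1 → M < 0 → Omega (WM M) = 2 * Om / Real.sqrt (-M)

/-- VAL: the central value of the negative twists -/
def S_VAL : Prop := ∀ M : ℤ, M < 0 → M % 4 = 1 → Squarefree M → 1 < M.natAbs →
  Nat.Coprime M.natAbs 14 → ∀ (sm : ℚ → ℤ) (Om : ℝ), (∀ r : ℚ, (3 : ℝ) * (II r).im = sm r * Om) →
  ∃ (f : ℂ → ℂ) (ε : ℤ), IsL (WM M) f ∧ (ε = 1 ∨ ε = -1) ∧
    f 1 = ((ε * SS sm M.natAbs M.natAbs * Om / (3 * Real.sqrt M.natAbs) : ℝ) : ℂ)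

/-- TAM: the product of the Tamagawa numbers -/
def S_TAM : Prop := S_E0 → S_TIN → S_TSP → S_T2 → S_T7 → ∀ P S : Finset ℕ,
  (∀ q ∈ P, q.Prime ∧ q ≠ 2 ∧ q ≠ 7 ∧ IsSquare (-7 : ZMod q)) →
  (∀ q ∈ S, q.Prime ∧ q ≠ 2 ∧ q ≠ 7 ∧ ¬ IsSquare (-7 : ZMod q)) →
  ∀ M : ℤ, M.natAbs = (∏ q ∈ P, q) * ∏ q ∈ S, q → M % 4 = 1 → Squarefree M →
    ∃ o : ℕ, Odd o ∧ tamProd (WM M) = 2 ^ (S.card + 2 * P.card + 1) * o

end Pool.Agent.Z704
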