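import Pool.Agent.Y687.N.SymM

/-!
# The symbols of `X_0(14)` together with the period lattice
-/

set_option autoImplicit false

open Filter Topology MeasureTheory Set

namespace Pool.Agent.Z704

open Pool.Agent.W97.TW Pool.Agent.W97.MT
open Pool.Agent.Y687 Pool.Agent.Y687.N

theorem exists_symbT' : ∃ (t sp sm : ℚ → ℤ) (L : PeriodPair) (Op Om : ℝ), 0 < Op ∧ 0 < Om ∧
    L.g₂ = -215 / 12 ∧ L.g₃ = 5291 / 216 ∧
    (∀ w : ℂ, w ∈ L.lattice ↔ ∃ a b : ℤ, 2 ∣ a - b ∧ w = a * Op + b * Om * Complex.I) ∧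
    SymbT t (fun q => ap E14 q) ∧ (∀ r, t r = sp r + sm r) ∧
    ∀ r : ℚ, (3 : ℂ) * II r = sp r * Op + sm r * Om * Complex.I := by
  obtain ⟨L, Op, Om, hOp, hOm, g2, g3, hL⟩ := hlat
  obtain ⟨Ξ, U, P, rΞ, rU, rP, tΞ, tU, tP⟩ := expansions hqe
  obtain ⟨h0, i2, i3, i6, iint, ij, i7⟩ := integrals hcp hqe hode L g2 g3 hinj htors
  have hP0 : PowerSeries.coeff 0 P = 1 := by
    rw [tP 0 (by norm_num)]; rfl
  have hecke' : ∀ q : ℕ, q.Prime → ∀ z, W97.MT.hecke 14 q form14 z = (ap E14 q : ℂ) * form14 z := by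
    intro q hq z
    have h1 := hecke_f14 hcp hqe rP hP0 hq z
    rw [coef_eq L g2 g3 rΞ rU rP tΞ tU tP hq] at h1
    exact h1
  have h7 : II 0 = ∑ b ∈ Finset.range 7, II ((b : ℚ) / 7) := by
    have h1 := hhint 14 7 form14 (1 : ℂ) (by norm_num) (int_rat L g2 g3) (fun z => by
      have h2 := hecke_f14 hcp hqe rP hP0 (p := 7) (by norm_num) z
      rw [tP (7 - 1) (by norm_num)] at h2
      have h3 : lphi.getD (7 - 1) 0 = 1 := rfl
      rw [h3, Int.cast_one] at h2
      exact h2) 0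
    rw [if_pos (by norm_num : (7 : ℕ) ∣ 14), one_mul, zero_add, prim_rat] at h1
    rw [h1]
    refine Finset.sum_congr rfl fun b _ => ?_
    rw [prim_rat]
    congr 1
    push_cast
    ring
  obtain ⟨s, hleast, hsymb, hne⟩ := harith II Op Om L.lattice hOp hOm hL II_zero_im i6 i2 i3
    ij II_conj II_add_one h7
  have hab : ∀ r : ℚ, ∃ a b : ℤ, (3 : ℂ) * II r = a * Op + b * Om * Complex.I := by
    intro r
    obtain ⟨a, b, hab⟩ := hleast.1.2 (-r)
    rw [neg_neg] at hab
    exact ⟨a, b, by exact_mod_cast hab⟩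
  choose sp sm hs using hab
  have inj : ∀ x y x' y' : ℤ, (x * Op + y * Om * Complex.I : ℂ) = x' * Op + y' * Om * Complex.I →
      x = x' ∧ y = y' := by
    intro x y x' y' h
    have h1 := congrArg Complex.re h
    have h2 := congrArg Complex.im h
    simp at h1 h2
    constructor
    · rcases h1 with h1 | h1
      · exact h1
      · exact absurd h1 hOp.ne'
    · rcases h2 with h2 | h2
      · exact h2
      · exact absurd h2 hOm.ne'
  have inj' : ∀ r r' : ℚ, II r = II r' → sp r = sp r' ∧ sm r = sm r' := by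
    intro r r' h
    refine inj _ _ _ _ ?_
    rw [← hs, ← hs, h]
  obtain ⟨ε, C, hε, -, hF⟩ := (isCusp14 hcp hqe).map.const
  have hε1 : ε = -1 := by
    rcases hε with rfl | rfl
    · exfalso
      have h1 := II_inv L g2 g3 (Or.inl rfl) hF (a := 0) (c := 1) (w := 0) (y := -1)
        (by norm_num) (by norm_num)
      norm_num at h1
      have h2 : (2 : ℂ) * II 0 = 0 := by linear_combination h1
      exact i2 (by rw [h2]; exact zero_mem _)
    · rfl
  subst hε1
  have hsm0 : sm 0 = 0 := by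
    have h1 := congrArg Complex.im (hs 0)
    simp [II_zero_im] at h1
    rcases h1 with h1 | h1
    · exact h1
    · exact absurd h1 hOm.ne'
  have hsp0 : Odd (sp 0) := by
    rw [← Int.not_even_iff_odd]
    rintro ⟨k, hk⟩
    apply i3
    refine (hL _).2 ⟨sp 0, 0, by rw [hk]; exact ⟨k, by ring⟩, ?_⟩
    rw [hs 0, hsm0]
  refine ⟨fun r => sp r + sm r, sp, sm, L, Op, Om, hOp, hOm, g2, g3, hL, ⟨?_, ?_, ?_, ?_⟩,
    fun r => rfl, hs⟩
  · intro x
    obtain ⟨h1, h2⟩ := inj' (x + 1) x (II_add_one x)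
    simp only [h1, h2]
  · intro q hq hq14 x
    have h1 := hhint 14 q form14 (ap E14 q : ℂ) hq (int_rat L g2 g3) (hecke' q hq) x
    rw [if_neg hq14, prim_rat, prim_rat] at h1
    simp_rw [prim_rat] at h1
    have h2 : ((ap E14 q * sp x : ℤ) : ℂ) * Op + ((ap E14 q * sm x : ℤ) : ℂ) * Om * Complex.I =
        ((sp (q * x) + ∑ b ∈ Finset.range q, sp ((x + b) / q) : ℤ) : ℂ) * Op +
        ((sm (q * x) + ∑ b ∈ Finset.range q, sm ((x + b) / q) : ℤ) : ℂ) * Om * Complex.I := by
      push_cast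
      have h3 : ∑ b ∈ Finset.range q, (3 : ℂ) * II ((x + b) / q) =
          (∑ b ∈ Finset.range q, (sp ((x + b) / q) : ℂ)) * Op +
            (∑ b ∈ Finset.range q, (sm ((x + b) / q) : ℂ)) * Om * Complex.I := by
        rw [Finset.sum_mul, Finset.sum_mul, Finset.sum_mul, ← Finset.sum_add_distrib]
        exact Finset.sum_congr rfl fun b _ => hs _
      rw [← Finset.mul_sum] at h3
      have h4 := hs x
      have h5 := hs (q * x)
      linear_combination (-(ap E14 q : ℂ)) * h4 + h5 + h3 + 3 * h1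
    obtain ⟨h3, h4⟩ := inj _ _ _ _ h2
    simp only [Finset.sum_add_distrib]
    linear_combination h3 + h4
  · intro M b d hM hdvd
    obtain ⟨y, hy⟩ := hdvd
    have hM' : (0 : ℤ) < M := by exact_mod_cast hM
    have h1 := II_inv L g2 g3 (Or.inr rfl) hF (a := b) (c := M) (w := -d) (y := -y) hM'
      (by linear_combination -hy)
    rw [neg_neg, one_mul] at h1
    have h2 : II ((b : ℚ) / M) = II ((d : ℚ) / M) := by
      push_cast at h1
      rw [neg_neg] at h1
      exact h1.symm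
    obtain ⟨h3, h4⟩ := inj' _ _ h2
    simp only [h3, h4]
  · intro M b hM hM14
    have hden : ((((b : ℚ) / M).den : ℤ)) ∣ M := by
      have := Rat.den_dvd b (M : ℤ)
      rwa [Rat.divInt_eq_div, Int.cast_natCast] at this
    have hp : ∀ m : ℕ, m.Prime → m ∣ 14 → ¬ ((m : ℤ)) ∣ (((b : ℚ) / M).den : ℤ) := by
      intro m hm hm14 h
      have h3 : (m : ℤ) ∣ M := h.trans hden
      have h4 : m ∣ M := by exact_mod_cast h3
      have h5 := Nat.dvd_gcd h4 hm14
      rw [hM14] at h5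
      exact hm.one_lt.ne' (Nat.dvd_one.1 h5)
    have h1 := i7 ((b : ℚ) / M) (hp 2 Nat.prime_two (by norm_num)) (hp 7 (by norm_num) (by norm_num))
    obtain ⟨x, y, hxy, h2⟩ := (hL _).1 h1
    have h3 := hs ((b : ℚ) / M)
    have h4 := hs 0
    have h5 : ((sp ((b : ℚ) / M) : ℤ) : ℂ) * Op + ((sm ((b : ℚ) / M) : ℤ) : ℂ) * Om * Complex.I =
        ((sp 0 + 3 * x : ℤ) : ℂ) * Op + ((sm 0 + 3 * y : ℤ) : ℂ) * Om * Complex.I := by
      push_cast
      linear_combination -h3 + h4 + 3 * h2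
    obtain ⟨h6, h7⟩ := inj _ _ _ _ h5
    rw [h6, h7, hsm0]
    obtain ⟨k, hk⟩ := hsp0
    obtain ⟨l, hl⟩ := hxy
    exact ⟨k + 3 * l + 3 * y, by linear_combination hk + 3 * hl⟩

theorem exists_symbM' : ∃ (t sp sm : ℚ → ℤ) (L : PeriodPair) (Op Om : ℝ), 0 < Op ∧ 0 < Om ∧
    L.g₂ = -215 / 12 ∧ L.g₃ = 5291 / 216 ∧
    (∀ w : ℂ, w ∈ L.lattice ↔ ∃ a b : ℤ, 2 ∣ a - b ∧ w = a * Op + b * Om * Complex.I) ∧
    (∀ r, t r = sp r + sm r) ∧
    (∀ r : ℚ, (3 : ℂ) * II r = sp r * Op + sm r * Om * Complex.I) ∧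
    (∀ r, sp (-r) = sp r) ∧ (∀ r, sp (r + 1) = sp r) ∧ SymbM sm (fun q => ap E14 q) ∧
    Odd (sm (1 / 3)) := by
  obtain ⟨t, sp, sm, L, Op, Om, hOp, hOm, g2, g3, hLt, ht, htt, hs⟩ := exists_symbT'
  -- imaginary parts
  have him : ∀ r : ℚ, 3 * (II r).im = sm r * Om := by
    intro r
    have h := congrArg Complex.im (hs r)
    simpa using h
  have hre : ∀ r : ℚ, 3 * (II r).re = sp r * Op := by
    intro r
    have h := congrArg Complex.re (hs r)
    simpa using h
  have injm : ∀ x y : ℤ, (x : ℝ) * Om = y * Om → x = y := fun x y h => by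
    exact_mod_cast mul_right_cancel₀ hOm.ne' h
  have injp : ∀ x y : ℤ, (x : ℝ) * Op = y * Op → x = y := fun x y h => by
    exact_mod_cast mul_right_cancel₀ hOp.ne' h
  have hneg : ∀ x, sm (-x) = -sm x := by
    intro x
    apply injm
    push_cast
    rw [← him, neg_mul, ← him, II_conj, Complex.conj_im]
    ring
  have hnegp : ∀ x, sp (-x) = sp x := by
    intro x
    apply injp
    rw [← hre, ← hre, II_conj, Complex.conj_re]
  have hsm0 : sm 0 = 0 := by
    have := hneg 0
    rw [neg_zero] at this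
    omega
  have hper : ∀ x, sm (x + 1) = sm x := by
    intro x
    apply injm
    rw [← him, ← him, II_add_one]
  have hperp : ∀ x, sp (x + 1) = sp x := by
    intro x
    apply injp
    rw [← hre, ← hre, II_add_one]
  refine ⟨t, sp, sm, L, Op, Om, hOp, hOm, g2, g3, hLt, htt, hs, hnegp, hperp,
    ⟨hper, hneg, ?_, ?_, ?_, ap3, ap5⟩, ?_⟩
  · intro q hq hq14 x
    apply injm
    push_cast
    have h1 := congrArg Complex.im (II_hecke q hq hq14 x)
    rw [Complex.add_im, Complex.im_sum] at h1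
    have h2 : ((ap E14 q : ℂ) * II x).im = (ap E14 q : ℝ) * (II x).im := by
      simp
    rw [h2] at h1
    rw [add_mul, Finset.sum_mul, ← him, mul_assoc, ← him]
    have h3 : ∀ b ∈ Finset.range q, (sm ((x + b) / q) : ℝ) * Om = 3 * (II ((x + b) / q)).im :=
      fun b _ => (him _).symm
    rw [Finset.sum_congr rfl h3, ← Finset.mul_sum]
    linear_combination 3 * h1
  · intro M b d hM hd
    have h1 := ht.inv M b d hM hd
    have h2 := ht.inv M (-b) (-d) hM (by
      have : 14 * -b * -d + 1 = 14 * b * d + 1 := by ring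
      rw [this]; exact hd)
    have e1 : (((-b : ℤ) : ℚ) / M) = -((b : ℚ) / M) := by push_cast; ring
    have e2 : (((-d : ℤ) : ℚ) / M) = -((d : ℚ) / M) := by push_cast; ring
    rw [e1, e2, htt, htt, hnegp, hnegp, hneg, hneg] at h2
    rw [htt, htt] at h1
    omega
  · intro A B C' D hdet x c hc
    apply injm
    push_cast
    have h1 := congrArg Complex.im (II_aff hdet hc)
    rw [Complex.sub_im, Complex.add_im] at h1
    have h0 := him 0
    rw [hsm0] at h0
    have e1 := him (((A * x + B * c : ℤ) : ℚ) / ((14 * C' * x + D * c : ℤ) : ℚ))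
    have e2 := him ((x : ℚ) / c)
    have e3 := him ((B : ℚ) / D)
    push_cast at e1 h1 h0
    rw [← e1, add_mul, ← e2, ← e3, h1]
    linarith
  · have h1 := II_hecke 3 Nat.prime_three (by norm_num) 0
    have h2 := congrArg Complex.re h1
    rw [ap3] at h2
    simp only [Finset.sum_range_succ, Finset.sum_range_zero] at h2
    norm_num at h2
    have e0 := hre 0
    have e1 := hre (1 / 3)
    have e2 := hre (2 / 3)
    have h3 : sp (2 / 3) = sp (1 / 3) := by
      have a1 := hperp (-(1 / 3))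
      have a2 := hnegp (1 / 3)
      norm_num at a1 a2
      rw [a1, a2]
    rw [h3] at e2
    norm_num at e1 e2
    have h4 : sp (1 / 3) = -2 * sp 0 := by
      apply injp
      push_cast
      norm_num
      linarith
    have h5 := ht.odd 3 1 (by norm_num) (by norm_num)
    rw [htt] at h5
    have e3 : (((1 : ℤ) : ℚ) / ((3 : ℕ) : ℚ)) = 1 / 3 := by norm_num
    rw [e3, h4] at h5
    obtain ⟨k, hk⟩ := h5
    exact ⟨k + sp 0, by omega⟩

end Pool.Agent.Z704
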