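import Pool.Agent.Z704.Main
import Pool.Agent.Z704.Sym
import Pool.Agent.Y687.N.MainN

/-!
# The formula modulo two for the negative twists
-/

set_option autoImplicit false
set_option linter.style.haveILetI false

open Finset

namespace Pool.Agent.Z704

open Pool.Agent.TH841.SH.D
open Pool.Agent.Z700 (pr lres Yd)
open Pool.Agent.Z701 (Sp)
open Pool.Agent.Y687 (SS)
open Pool.Agent.Y687.N (HypK xrZ RtZ Gn Def sp_sq)
open Pool.Agent.Y700 (PC WM EQ Omega IsL tamProd S_E0 S_TIN S_TSP S_T2 S_T7 S_MIN)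
open Pool.Agent.W97.MT (II IsGloballyMinimal)
open Pool.Agent.Z702 (WZ S_COC S_LOT S_COB S_TOR S_TRN S_TORS S_LQ S_LG S_LP S_LIN)

/-- **the formula modulo two for the negative twists** -/
theorem fullN (h1 : S_COC) (h2 : S_LOT) (h3 : S_COB) (h4 : S_TOR) (hq : S_LQ) (hg : S_LG)
    (hp : S_LP) (hn : S_LIN) (hT : S_TRN) (hTo : S_TORS) (hA : S_SELA) (hB : S_SELB)
    (tE : S_E0) (tIN : S_TIN) (tSP : S_TSP) (t2 : S_T2) (t7 : S_T7) (tM : S_MIN)
    (hO : S_OMEGA) (hV : S_VAL) (hTa : S_TAM)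
    {P T : Finset ℕ} {m : ℤ} (hC : Cnd m P) (hneg : m < 0) (hTp : ∀ q ∈ T, q.Prime)
    (hTm : m.natAbs = ∏ q ∈ T, q) {g y : ℤ} {a : ℕ} (hD : Def ((pr P : ℤ) * m).natAbs g)
    (hga : g = 2 ^ a * y) (ha : 2 * a + 1 = T.card + 2 * P.card)
    (hy : Odd y ↔ Odd (Yd lres (xrZ m) P)) (h8 : ((pr P : ℤ) * m).natAbs % 8 = 3)
    (hj : jacobiSym 7 ((pr P : ℤ) * m).natAbs = 1)
    (W : WeierstrassCurve ℤ) (hW : W = WM ((pr P : ℤ) * m)) :
    IsGloballyMinimal W ∧ (∃ f, IsL W f) ∧ ∃ y : ℤ,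
      (Odd y ↔ (Finite (EQ W).toAffine.Point ∧ ∀ x : Sha (EQ W), x + x = 0 → x = 0)) ∧
      ∀ f, IsL W f → (y ≠ 0 → f 1 ≠ 0) ∧ ∃ w : ℚ, w ≠ 0 ∧ padicValRat 2 w = 0 ∧
        f 1 = (((w : ℝ) * (y : ℝ) ^ 2 * (Omega W * tamProd W /
          (Nat.card (AddCommGroup.torsion (EQ W).toAffine.Point) : ℝ) ^ 2) : ℝ) : ℂ) := by
  classical
  have hM4 := hC.M4
  have hprP : 0 < (pr P : ℤ) := by
    have := Pool.Agent.Z700.pr_pos fun p hp => (hC.sp p hp).1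
    exact_mod_cast this
  have hMneg : (pr P : ℤ) * m < 0 := mul_neg_of_pos_of_neg hprP hneg
  set M : ℤ := (pr P : ℤ) * m with hM
  set n : ℕ := M.natAbs with hn'
  have hnM : (n : ℤ) = -M := by omega
  have hsqM : Squarefree M := hC.sqf
  have hsqn : Squarefree n := Int.squarefree_natAbs.2 hsqM
  have hGn : Gn n := ⟨hsqn, h8⟩
  have h7 : ¬ (7 : ℤ) ∣ M := by
    intro h
    rcases (Int.prime_iff_natAbs_prime.2 (by norm_num : Nat.Prime (7 : ℤ).natAbs)).dvd_or_dvd h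
      with h | h
    · have h5 : 7 ∣ pr P := by exact_mod_cast h
      by_cases h6 : (7 : ℕ) ∈ P
      · have := (hC.sp 7 h6).2.1
        omega
      · exact Pool.Agent.Y664.Z.prime_not_dvd_pr (by norm_num) (fun q hq => (hC.sp q hq).1) h6 h5
    · exact (hC.two 7 (by norm_num) (by exact_mod_cast h)).2.1 rfl
  have h7n : ¬ 7 ∣ n := by
    intro h
    apply h7
    have h5 : (7 : ℤ) ∣ (n : ℤ) := by exact_mod_cast h
    rw [hnM] at h5
    exact (dvd_neg).1 h5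
  have h14 : Nat.Coprime n 14 := by
    rw [show (14 : ℕ) = 2 * 7 by norm_num]
    refine Nat.Coprime.mul_right ?_ ?_
    · rw [Nat.coprime_comm, Nat.Prime.coprime_iff_not_dvd Nat.prime_two]
      omega
    · rw [Nat.coprime_comm, Nat.Prime.coprime_iff_not_dvd (by norm_num)]
      exact h7n
  obtain ⟨t, sp, sm, L, Op, Om, hOp, hOm, g2, g3, hLt, htt, hs, hnegp, hperp, hsm, h13⟩ :=
    exists_symbM'
  have hval := Pool.Agent.Y687.N.SS_value Pool.Agent.Y687.N.f_FORM Pool.Agent.Y687.N.f_LVL2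
    Pool.Agent.Y687.N.f_C1B Pool.Agent.Y687.N.f_C21 Pool.Agent.Y687.N.f_C27
    Pool.Agent.Y687.N.f_CARD hGn h7n hj hsm hD
  have him : ∀ r : ℚ, (3 : ℝ) * (II r).im = sm r * Om := by
    intro r
    have h := congrArg Complex.im (hs r)
    simpa using h
  obtain ⟨f0, ε, hf0, hε, hv⟩ := hV M hMneg hM4 hsqM (by omega) h14 sm Om him
  have hΩ := hO L Op Om hOp hOm g2 g3 hLt M hM4 hMneg
  obtain ⟨o3, ho3, e5⟩ := hTa tE tIN tSP t2 t7 P T (by
      intro q hq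
      have h7 := (hC.sp q hq).2.2
      have h8 := (hC.sp q hq).2.1
      exact ⟨(hC.sp q hq).1, by omega, by omega, (sp_sq (hC.sp q hq)).2.2.2.2⟩) (by
      intro q hq
      have hqm : (q : ℤ) ∣ m := by
        rw [← Int.dvd_natAbs, hTm]
        exact_mod_cast Finset.dvd_prod_of_mem _ hq
      obtain ⟨k1, k2, k3, -⟩ := hC.two q (hTp q hq) hqm
      exact ⟨hTp q hq, k1, k2, k3⟩) M (by
      rw [hM, Int.natAbs_mul, Int.natAbs_natCast, hTm]
      rfl) hM4 hsqM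
  have hM0 : M ≠ 0 := hMneg.ne
  have hM2 : 0 < M ^ 2 := by positivity
  have hab : (13 * M) ^ 2 - 4 * (128 * M ^ 2) < 0 := by nlinarith
  obtain ⟨k, hk, a3⟩ := hTo (13 * M) (128 * M ^ 2) (by positivity) hab.ne
    (Pool.Agent.Z702.ns_b hM0) (Pool.Agent.Z702.ns_ab hM0)
  rw [(Pool.Agent.Z702.trn_WM hT hM4).2.2] at a3
  have hnR : (n : ℝ) = -(M : ℝ) := by exact_mod_cast hnM
  have hn0 : (0 : ℝ) < n := by
    have : 0 < n := by omega
    exact_mod_cast this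
  have hεo : Odd ε := by rcases hε with rfl | rfl <;> decide
  obtain ⟨c1, c2, c3⟩ := concl tM hM4 hsqM h7 hf0 (V := (ε : ℝ) * (SS sm n n : ℝ))
    (Op := Om) (r := Real.sqrt n) hOm.ne' (Real.sqrt_pos.2 hn0).ne' (by rw [hv]) (by
      rw [hΩ]
      congr 2
      rw [hnR]) (e := 2 * a + 1) (o1 := ε * sm (1 / 3)) (y := y) (hεo.mul h13) (by
      rw [hval, hga]
      push_cast
      ring) (o3 := o3) ho3 (by rw [e5, ha]) hk a3
  subst hW
  refine ⟨c1, c2, y, ?_, c3⟩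
  rw [hy]
  exact equiv h1 h2 h3 h4 hq hg hp hn hT hA hB hC

end Pool.Agent.Z704
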